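import Pool.Agent.U253.GAP.Dec
import Mathlib.NumberTheory.LSeries.SumCoeff

/-!
# Partial summation
-/

set_option autoImplicit false

namespace Pool.Agent.U253.GAP

open Filter Topology Asymptotics Pool.Agent.N210.FV Pool.Agent.N210.FW

theorem abel {g : ℕ → ℝ} (hg : ∀ n, 0 ≤ g n)
    (ho : (fun X : ℕ => ∑ n ∈ Finset.range X, g n) =o[atTop] fun X : ℕ => √(X : ℝ)) :
    (∀ σ : ℝ, 1 / 2 < σ → Summable fun n : ℕ => g n * (n : ℝ) ^ (-σ)) ∧
    Tendsto (fun δ : ℝ => δ * ∑' n : ℕ, g n * (n : ℝ) ^ (-(1 / 2 + δ))) (𝓝[>] 0) (𝓝 0) := by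
  set f : ℕ → ℝ := fun n => g n * √(n : ℝ) with hf
  have hf0 : ∀ n, 0 ≤ f n := fun n => mul_nonneg (hg n) (Real.sqrt_nonneg _)
  have hlim : Tendsto (fun n : ℕ => (∑ k ∈ Finset.Icc 1 n, f k) / n) atTop (𝓝 0) := by
    have h1 : Tendsto (fun n : ℕ => (∑ k ∈ Finset.range (n + 1), g k) / √((n + 1 : ℕ) : ℝ) * √2)
        atTop (𝓝 0) := by
      have h2 := (ho.tendsto_div_nhds_zero.comp (tendsto_add_atTop_nat 1)).mul_const √2
      rw [zero_mul] at h2
      exact h2
    refine squeeze_zero' (Eventually.of_forall fun n => ?_) ?_ h1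
    · exact div_nonneg (Finset.sum_nonneg fun k _ => hf0 k) (Nat.cast_nonneg n)
    · filter_upwards [eventually_ge_atTop 1] with n hn
      have hn' : (1 : ℝ) ≤ n := by exact_mod_cast hn
      have hn0 : (0 : ℝ) < n := by linarith
      have h2 : ∑ k ∈ Finset.Icc 1 n, f k ≤ √(n : ℝ) * ∑ k ∈ Finset.range (n + 1), g k := by
        rw [Finset.mul_sum]
        calc ∑ k ∈ Finset.Icc 1 n, f k ≤ ∑ k ∈ Finset.Icc 1 n, √(n : ℝ) * g k := by
              refine Finset.sum_le_sum fun k hk => ?_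
              rw [Finset.mem_Icc] at hk
              have : √(k : ℝ) ≤ √(n : ℝ) := Real.sqrt_le_sqrt (by exact_mod_cast hk.2)
              have h9 := mul_le_mul_of_nonneg_right this (hg k)
              simp only [hf]
              linarith
          _ ≤ _ := by
              refine Finset.sum_le_sum_of_subset_of_nonneg ?_ fun k _ _ =>
                mul_nonneg (Real.sqrt_nonneg _) (hg k)
              intro k hk
              rw [Finset.mem_Icc] at hk
              rw [Finset.mem_range]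
              omega
      have h3 : 0 < √(n : ℝ) := Real.sqrt_pos.2 hn0
      have h4 : √((n + 1 : ℕ) : ℝ) ≤ √2 * √(n : ℝ) := by
        rw [← Real.sqrt_mul (by norm_num)]
        refine Real.sqrt_le_sqrt ?_
        push_cast
        linarith
      have h5 : 0 < √((n + 1 : ℕ) : ℝ) := Real.sqrt_pos.2 (by positivity)
      have hA : 0 ≤ ∑ k ∈ Finset.range (n + 1), g k := Finset.sum_nonneg fun k _ => hg k
      rw [div_le_iff₀ hn0]
      refine h2.trans ?_
      have h6 : √(n : ℝ) * √(n : ℝ) = (n : ℝ) := Real.mul_self_sqrt hn0.le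
      rw [div_mul_eq_mul_div, div_mul_eq_mul_div, le_div_iff₀ h5]
      calc √(n : ℝ) * (∑ k ∈ Finset.range (n + 1), g k) * √((n + 1 : ℕ) : ℝ) ≤
          √(n : ℝ) * (∑ k ∈ Finset.range (n + 1), g k) * (√2 * √(n : ℝ)) := by
            gcongr
        _ = (∑ k ∈ Finset.range (n + 1), g k) * √2 * (√(n : ℝ) * √(n : ℝ)) := by ring
        _ = _ := by rw [h6]
  have hO : (fun n : ℕ => ∑ k ∈ Finset.Icc 1 n, f k) =O[atTop] fun n : ℕ => (n : ℝ) ^ (1 : ℝ) := by
    simp only [Real.rpow_one]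
    have h1 : (fun n : ℕ => ∑ k ∈ Finset.Icc 1 n, f k) =o[atTop] fun n : ℕ => (n : ℝ) := by
      rw [isLittleO_iff_tendsto' ?_]
      · exact hlim
      · filter_upwards [eventually_ge_atTop 1] with n hn h0
        have : (n : ℝ) ≠ 0 := by positivity
        exact absurd h0 this
    exact h1.isBigO
  have hterm : ∀ σ : ℝ, 1 / 2 < σ → ∀ n : ℕ,
      LSeries.term (fun n => (f n : ℂ)) ((σ + 1 / 2 : ℝ) : ℂ) n = ((g n * (n : ℝ) ^ (-σ) : ℝ) : ℂ) := by
    intro σ hσ n
    rw [LSeries.term_def]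
    split_ifs with h0
    · rw [h0]
      simp only [Nat.cast_zero]
      rw [Real.zero_rpow (by linarith), mul_zero, Complex.ofReal_zero]
    · have hn0 : (0 : ℝ) < n := by exact_mod_cast Nat.pos_of_ne_zero h0
      have h1 : ((n : ℂ) ^ ((σ + 1 / 2 : ℝ) : ℂ)) = (((n : ℝ) ^ (σ + 1 / 2) : ℝ) : ℂ) := by
        rw [Complex.ofReal_cpow hn0.le]
        rfl
      rw [h1, ← Complex.ofReal_div]
      congr 1
      simp only [hf]
      rw [Real.rpow_add hn0, Real.rpow_neg hn0.le, Real.sqrt_eq_rpow]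
      have h2 : (n : ℝ) ^ (1 / 2 : ℝ) ≠ 0 := (Real.rpow_pos_of_pos hn0 _).ne'
      have h3 : (n : ℝ) ^ σ ≠ 0 := (Real.rpow_pos_of_pos hn0 _).ne'
      field_simp
  have hS : ∀ σ : ℝ, 1 / 2 < σ → Summable fun n : ℕ => g n * (n : ℝ) ^ (-σ) := by
    intro σ hσ
    have h1 : LSeriesSummable (fun n => (f n : ℂ)) ((σ + 1 / 2 : ℝ) : ℂ) :=
      LSeriesSummable_of_sum_norm_bigO_and_nonneg hO hf0 (by norm_num) (by
        rw [Complex.ofReal_re]
        linarith)
    unfold LSeriesSummable at h1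
    rw [← Complex.summable_ofReal]
    exact h1.congr (hterm σ hσ)
  refine ⟨hS, ?_⟩
  have h1 := LSeries_tendsto_sub_mul_nhds_one_of_tendsto_sum_div_and_nonneg f hlim hf0
  have h2 : Tendsto (fun δ : ℝ => 1 + δ) (𝓝[>] 0) (𝓝[>] 1) := by
    rw [tendsto_nhdsWithin_iff]
    constructor
    · have : Tendsto (fun δ : ℝ => 1 + δ) (𝓝 0) (𝓝 (1 + 0)) :=
        tendsto_const_nhds.add tendsto_id
      rw [add_zero] at this
      exact this.mono_left nhdsWithin_le_nhds
    · filter_upwards [self_mem_nhdsWithin] with δ hδ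
      have hδ : (0 : ℝ) < δ := hδ
      simpa using hδ
  have h3 := (Complex.continuous_re.tendsto _).comp (h1.comp h2)
  simp only [Complex.ofReal_zero, Complex.zero_re] at h3
  refine h3.congr' ?_
  filter_upwards [self_mem_nhdsWithin] with δ hδ
  have hδ : (0 : ℝ) < δ := hδ
  simp only [Function.comp_apply]
  have h4 : LSeries (fun n => (f n : ℂ)) ((1 + δ : ℝ) : ℂ) =
      ((∑' n : ℕ, g n * (n : ℝ) ^ (-(1 / 2 + δ)) : ℝ) : ℂ) := by
    unfold LSeries
    rw [Complex.ofReal_tsum]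
    refine tsum_congr fun n => ?_
    rw [← hterm (1 / 2 + δ) (by linarith) n]
    congr 2
    ring
  have h5 : (((1 + δ : ℝ) : ℂ) - 1) = ((δ : ℝ) : ℂ) := by
    push_cast
    ring
  rw [h4, h5, ← Complex.ofReal_mul, Complex.ofReal_re]

end Pool.Agent.U253.GAP
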