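import Pool.Agent.N210.FW.Asm

/-!
# Coefficients which are bounded up to a small part

`Sm S F`: the Dirichlet series converges absolutely for `Re s > 1/2`, its majorant at `1/2 + δ` is `o(1/δ)`.
-/

set_option autoImplicit false

namespace Pool.Agent.U253.GAP

open Filter Topology Complex Set Pool.Agent.N210.FV Pool.Agent.N210.FW
open scoped ArithmeticFunction.vonMangoldt

/-- absolute convergence for `Re s > 1` -/
def Cv (S : Finset ℕ) (F : ℕ → ℕ → ℂ) : Prop :=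
  ∀ σ : ℝ, 1 < σ → Summable fun i : PS S × ℕ => ‖aa S 1 F i‖ * Real.exp (-(oo S 1 i * σ))

/-- the majorant of the series -/
noncomputable def maj (S : Finset ℕ) (F : ℕ → ℕ → ℂ) (σ : ℝ) : ℝ :=
  ∑' i : PS S × ℕ, ‖aa S 1 F i‖ * Real.exp (-(oo S 1 i * σ))

/-- absolute convergence for `Re s > 1/2`, with small growth at the line `Re s = 1/2` -/
structure Sm (S : Finset ℕ) (F : ℕ → ℕ → ℂ) : Prop where
  sum : ∀ σ : ℝ, 1 / 2 < σ → Summable fun i : PS S × ℕ =>
    ‖aa S 1 F i‖ * Real.exp (-(oo S 1 i * σ))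
  lim : Tendsto (fun δ : ℝ => δ * maj S F (1 / 2 + δ)) (𝓝[>] 0) (𝓝 0)

/-- difference -/
def Fd (G G₂ : ℕ → ℕ → ℂ) (p k : ℕ) : ℂ := G p k - G₂ p k

section

variable {S : Finset ℕ} {G G₂ : ℕ → ℕ → ℂ} {M ρ : ℝ}

theorem aa_fd (i : PS S × ℕ) : aa S 1 G i = aa S 1 (Fd G G₂) i + aa S 1 G₂ i := by
  unfold aa Fd
  ring

theorem aa_shift (i : PS S × ℕ) : aa S 1 G (i.1, i.2 + 1) = aa S 2 G i := rfl

theorem oo_shift (i : PS S × ℕ) : oo S 1 (i.1, i.2 + 1) = oo S 2 i := by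
  unfold oo
  push_cast
  ring

theorem shift_inj : Function.Injective fun i : PS S × ℕ => (i.1, i.2 + 1) := by
  rintro ⟨a, b⟩ ⟨a', b'⟩ h
  simp only [Prod.mk.injEq, Nat.add_right_cancel_iff] at h
  exact Prod.ext h.1 h.2

theorem maj_nonneg (S : Finset ℕ) (F : ℕ → ℕ → ℂ) (σ : ℝ) : 0 ≤ maj S F σ :=
  tsum_nonneg fun i => by positivity

theorem Sm.anti (h : Sm S G) {σ σ' : ℝ} (h1 : 1 / 2 < σ) (h2 : σ ≤ σ') : maj S G σ' ≤ maj S G σ := by
  refine Summable.tsum_le_tsum (fun i => ?_) (h.sum σ' (by linarith)) (h.sum σ h1)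
  have := oo_nonneg 1 i
  gcongr

/-- the bound -/
theorem Sm.bound (h : Sm S G) : ∃ C : ℝ, 0 ≤ C ∧ ∀ σ : ℝ, 1 / 2 < σ → σ ≤ 1 →
    maj S G σ ≤ C / (σ - 1 / 2) := by
  have h1 := h.lim.eventually (gt_mem_nhds (show (0 : ℝ) < 1 by norm_num))
  rw [eventually_nhdsWithin_iff, Metric.eventually_nhds_iff] at h1
  obtain ⟨ε, hε, h2⟩ := h1
  have hm := maj_nonneg S G (1 / 2 + ε / 2)
  refine ⟨1 + maj S G (1 / 2 + ε / 2), by linarith, fun σ h3 h4 => ?_⟩
  have h5 : 0 < σ - 1 / 2 := by linarith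
  rw [le_div_iff₀ h5]
  rcases lt_or_ge (σ - 1 / 2) (ε / 2) with h6 | h6
  · have h7 := h2 (y := σ - 1 / 2) (by
      rw [Real.dist_eq, sub_zero, abs_of_pos h5]
      linarith) h5
    have e : 1 / 2 + (σ - 1 / 2) = σ := by ring
    rw [e] at h7
    linarith
  · have h7 := h.anti (σ := 1 / 2 + ε / 2) (σ' := σ) (by linarith) (by linarith)
    have h8 := maj_nonneg S G σ
    nlinarith

theorem Sm.norm_le (h : Sm S G) {s : ℂ} (hs : 1 / 2 < s.re) :
    ‖Ds (aa S 1 G) (oo S 1) s‖ ≤ maj S G s.re := by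
  unfold Ds maj
  refine tsum_of_norm_bounded (h.sum s.re hs).hasSum fun i => ?_
  rw [norm_ds_term]

theorem Sm.summC (h : Sm S G) {s : ℂ} (hs : 1 / 2 < s.re) :
    Summable fun i : PS S × ℕ => aa S 1 G i * exp (-(oo S 1 i : ℂ) * s) := by
  refine Summable.of_norm ?_
  simp_rw [norm_ds_term]
  exact h.sum s.re hs

theorem not_range {x : PS S × ℕ} (hx : x ∉ Set.range fun i : PS S × ℕ => (i.1, i.2 + 1)) :
    x.2 = 0 := by
  by_contra h
  obtain ⟨m, hm⟩ := Nat.exists_eq_succ_of_ne_zero h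
  exact hx ⟨(x.1, m), Prod.ext rfl hm.symm⟩

theorem sum_fd (hb : Bnd S (Fd G G₂) M ρ) (h0 : ∀ p : PS S, G p 1 = G₂ p 1) {σ : ℝ}
    (hσ : 1 / 2 < σ) : Summable fun i : PS S × ℕ =>
      ‖aa S 1 (Fd G G₂) i‖ * Real.exp (-(oo S 1 i * σ)) := by
  rw [← Function.Injective.summable_iff (shift_inj (S := S))]
  · refine (hb.summ 2 hσ.le (by push_cast; linarith)).congr fun i => ?_
    simp only [Function.comp_apply]
    rw [aa_shift, oo_shift]
  · intro x hx
    have h1 := not_range hx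
    unfold aa
    rw [h1]
    unfold Fd
    rw [zero_add, h0, sub_self]
    simp

theorem sum_all (hb : Bnd S (Fd G G₂) M ρ) (hs : Sm S G₂) (h0 : ∀ p : PS S, G p 1 = G₂ p 1) {σ : ℝ}
    (hσ : 1 / 2 < σ) : Summable fun i : PS S × ℕ =>
      ‖aa S 1 G i‖ * Real.exp (-(oo S 1 i * σ)) := by
  refine Summable.of_nonneg_of_le (fun i => by positivity) (fun i => ?_)
    ((sum_fd hb h0 hσ).add (hs.sum σ hσ))
  rw [← add_mul, aa_fd (G₂ := G₂)]
  exact mul_le_mul_of_nonneg_right (norm_add_le _ _) (Real.exp_pos _).le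

theorem sum_cv (hb : Bnd S (Fd G G₂) M ρ) (hs : Sm S G₂) : Cv S G := by
  intro σ hσ
  refine Summable.of_nonneg_of_le (fun i => by positivity) (fun i => ?_)
    ((hb.summ 1 (σ := σ) (by linarith) (by push_cast; linarith)).add (hs.sum σ (by linarith)))
  rw [← add_mul, aa_fd (G₂ := G₂)]
  exact mul_le_mul_of_nonneg_right (norm_add_le _ _) (Real.exp_pos _).le

theorem Ds_dec (hb : Bnd S (Fd G G₂) M ρ) (hs : Sm S G₂) (h0 : ∀ p : PS S, G p 1 = G₂ p 1) {s : ℂ}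
    (hσ : 1 / 2 < s.re) : Ds (aa S 1 G) (oo S 1) s =
      Ds (aa S 2 (Fd G G₂)) (oo S 2) s + Ds (aa S 1 G₂) (oo S 1) s := by
  have h1 : Summable fun i : PS S × ℕ => aa S 1 (Fd G G₂) i * exp (-(oo S 1 i : ℂ) * s) := by
    refine Summable.of_norm ?_
    simp_rw [norm_ds_term]
    exact sum_fd hb h0 hσ
  have h2 : Ds (aa S 1 (Fd G G₂)) (oo S 1) s = Ds (aa S 2 (Fd G G₂)) (oo S 2) s := by
    unfold Ds
    rw [← Function.Injective.tsum_eq (shift_inj (S := S))]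
    · refine tsum_congr fun i => ?_
      rw [aa_shift, oo_shift]
    · intro x hx
      by_contra hcon
      have h3 := not_range hcon
      apply hx
      simp only
      unfold aa
      rw [h3]
      unfold Fd
      rw [zero_add, h0, sub_self]
      simp
  rw [← h2]
  unfold Ds
  rw [← h1.tsum_add (hs.summC hσ)]
  refine tsum_congr fun i => ?_
  rw [aa_fd (G₂ := G₂), add_mul]

theorem Ds_dec_diff (hb : Bnd S (Fd G G₂) M ρ) (hs : Sm S G₂)
    (h0 : ∀ p : PS S, G p 1 = G₂ p 1) :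
    DifferentiableOn ℂ (Ds (aa S 1 G) (oo S 1)) {s | 1 / 2 < s.re} := by
  intro s hσ
  have hσ : 1 / 2 < s.re := hσ
  have h1 := Ds_hasDeriv (σ := (1 / 2 + s.re) / 2) (b := aa S 1 G) (om := oo S 1)
    (sum_all hb hs h0 (by linarith)) (fun i => oo_nonneg 1 i) (s := s) (by linarith)
  exact h1.differentiableAt.differentiableWithinAt

variable {J : Type*} [Fintype J] {w : J → ℝ} {g : J → ℂ → ℂ}

/-- the residues are square summable -/
theorem sq_dec (hG : Bnd S (Fd G G₂) M ρ) (hsm : Sm S G₂) (h0 : ∀ p : PS S, G p 1 = G₂ p 1)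
    (hg : ∀ i, Differentiable ℂ (g i)) (hne : ∀ i, ∃ s, g i s ≠ 0)
    (hr : ∀ s : ℂ, 1 / 2 < s.re → AA w g s = -Ds (aa S 1 G) (oo S 1) s) (Z : Finset ℂ)
    (hZ : ∀ z ∈ Z, z.re = 1 / 2) : ∑ z ∈ Z, (mm w g z) ^ 2 ≤ (M * ρ ^ 2) ^ 2 / 4 := by
  have hlim : ∀ z : ℂ, z.re = 1 / 2 →
      Tendsto (fun δ : ℝ => (δ : ℂ) * D2 S (Fd G G₂) (z + δ)) (𝓝[>] 0) (𝓝 (-(mm w g z : ℂ))) := by
    intro z hz
    obtain ⟨CV, hCV0, hCV⟩ := V_bound
    have h0' : Tendsto (fun δ : ℝ => (δ : ℂ)) (𝓝[>] 0) (𝓝 0) := by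
      have := (continuous_ofReal.tendsto (0 : ℝ))
      rw [ofReal_zero] at this
      exact this.mono_left nhdsWithin_le_nhds
    have h1 : Tendsto (fun δ : ℝ => z + (δ : ℂ)) (𝓝[>] 0) (𝓝[≠] z) := by
      rw [tendsto_nhdsWithin_iff]
      constructor
      · simpa using h0'.const_add z
      · filter_upwards [self_mem_nhdsWithin] with δ hδ
        have hδ : (0 : ℝ) < δ := hδ
        simp [hδ.ne']
    have h2 := (AA_pole (w := w) hg hne z).comp h1
    have h3 := h0'.mul h2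
    rw [zero_mul] at h3
    -- the rest of the series
    have h4 : Tendsto (fun δ : ℝ => (δ : ℂ) * Ds (aa S 3 (Fd G G₂)) (oo S 3) (z + δ)) (𝓝[>] 0)
        (𝓝 0) := by
      have hK : ∀ᶠ δ : ℝ in 𝓝[>] 0, ‖(δ : ℂ) * Ds (aa S 3 (Fd G G₂)) (oo S 3) (z + δ)‖ ≤
          ‖(δ : ℂ)‖ * (2 * (M * ρ ^ 3) * (CV / (1 / 2))) := by
        have h5 : ∀ᶠ δ : ℝ in 𝓝[>] 0, δ < 1 / 2 :=
          mem_nhdsWithin_of_mem_nhds (gt_mem_nhds (by norm_num))
        filter_upwards [self_mem_nhdsWithin, h5] with δ hδ hδ2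
        have hδ : (0 : ℝ) < δ := hδ
        have e : (z + (δ : ℂ)).re = 1 / 2 + δ := by rw [add_re, hz, ofReal_re]
        have h6 := hG.norm_le 3 (s := z + δ) (by rw [e]; linarith) (by rw [e]; push_cast; linarith)
        rw [norm_mul]
        refine mul_le_mul_of_nonneg_left (h6.trans ?_) (norm_nonneg _)
        have hM := hG.M0
        have hr := hG.r1
        have h7 := hCV (3 * (1 / 2 + δ)) (by linarith) (by linarith)
        have h8 : CV / (3 * (1 / 2 + δ) - 1) ≤ CV / (1 / 2) := by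
          gcongr
          linarith
        have h9 : ((3 : ℕ) : ℝ) * (z + (δ : ℂ)).re = 3 * (1 / 2 + δ) := by rw [e]; norm_num
        rw [h9]
        gcongr
        exact h7.trans h8
      refine squeeze_zero_norm' hK ?_
      have h5 := h0'.norm.mul_const (2 * (M * ρ ^ 3) * (CV / (1 / 2)))
      simpa using h5
    have h4' : Tendsto (fun δ : ℝ => (δ : ℂ) * Ds (aa S 1 G₂) (oo S 1) (z + δ)) (𝓝[>] 0)
        (𝓝 0) := by
      have hK : ∀ᶠ δ : ℝ in 𝓝[>] 0, ‖(δ : ℂ) * Ds (aa S 1 G₂) (oo S 1) (z + δ)‖ ≤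
          δ * maj S G₂ (1 / 2 + δ) := by
        filter_upwards [self_mem_nhdsWithin] with δ hδ
        have hδ : (0 : ℝ) < δ := hδ
        have e : (z + (δ : ℂ)).re = 1 / 2 + δ := by rw [add_re, hz, ofReal_re]
        rw [norm_mul, Complex.norm_real, Real.norm_of_nonneg hδ.le]
        have h6 := hsm.norm_le (s := z + δ) (by rw [e]; linarith)
        rw [e] at h6
        exact mul_le_mul_of_nonneg_left h6 hδ.le
      exact squeeze_zero_norm' hK hsm.lim
    have h5 := ((h3.neg.sub h4).sub h4').add (tendsto_const_nhds (x := -(mm w g z : ℂ)))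
    simp only [neg_zero, sub_zero, zero_add] at h5
    refine h5.congr' ?_
    filter_upwards [self_mem_nhdsWithin] with δ hδ
    have hδ : (0 : ℝ) < δ := hδ
    have e : (z + (δ : ℂ)).re = 1 / 2 + δ := by rw [add_re, hz, ofReal_re]
    simp only [Function.comp_apply]
    rw [hr _ (by rw [e]; linarith), Ds_dec hG hsm h0 (by rw [e]; linarith)]
    have h6 := hG.split 2 (s := z + δ) (by rw [e]; linarith) (by rw [e]; push_cast; linarith)
    have h7 : D2 S (Fd G G₂) (z + δ) = Ds (aa S 2 (Fd G G₂)) (oo S 2) (z + δ) -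
        Ds (aa S 3 (Fd G G₂)) (oo S 3) (z + δ) := by
      rw [h6]
      unfold D2
      push_cast
      ring
    rw [h7]
    have hδ0 : (δ : ℂ) ≠ 0 := by exact_mod_cast hδ.ne'
    have h8 : z + (δ : ℂ) - z = δ := by ring
    rw [h8]
    field_simp
    ring
  have h1 : Tendsto (fun δ : ℝ => ‖∑ z ∈ Z, (mm w g z : ℂ) * ((δ : ℂ) * D2 S (Fd G G₂) (z + δ))‖)
      (𝓝[>] 0) (𝓝 ‖∑ z ∈ Z, (mm w g z : ℂ) * (-(mm w g z : ℂ))‖) := by
    refine Tendsto.norm (tendsto_finsetSum _ fun z hz => ?_)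
    exact (hlim z (hZ z hz)).const_mul _
  have h2 : ‖∑ z ∈ Z, (mm w g z : ℂ) * (-(mm w g z : ℂ))‖ = ∑ z ∈ Z, (mm w g z) ^ 2 := by
    have : ∑ z ∈ Z, (mm w g z : ℂ) * (-(mm w g z : ℂ)) = -((∑ z ∈ Z, (mm w g z) ^ 2 : ℝ) : ℂ) := by
      push_cast
      rw [← Finset.sum_neg_distrib]
      exact Finset.sum_congr rfl fun z _ => by ring
    rw [this, norm_neg, Complex.norm_real, Real.norm_of_nonneg]
    exact Finset.sum_nonneg fun z _ => sq_nonneg _
  rw [h2] at h1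
  have h3 := Q_lim (m := mm w g) ((M * ρ ^ 2) ^ 2 / 4) hZ
  have h4 := le_of_tendsto_of_tendsto h1 h3 (by
    filter_upwards [self_mem_nhdsWithin] with δ hδ
    have hδ : (0 : ℝ) < δ := hδ
    have h5 : ∑ z ∈ Z, (mm w g z : ℂ) * ((δ : ℂ) * D2 S (Fd G G₂) (z + δ)) =
        (δ : ℂ) * ∑ z ∈ Z, (mm w g z : ℂ) * D2 S (Fd G G₂) (z + δ) := by
      rw [Finset.mul_sum]
      exact Finset.sum_congr rfl fun z _ => by ring
    rw [h5, norm_mul, Complex.norm_real, Real.norm_of_nonneg hδ.le]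
    exact mul_le_mul_of_nonneg_left (hG.dual hZ hδ) hδ.le)
  linarith

end

section

variable {J' : Type*} [Fintype J'] {c : J' → ℝ} {S : Finset ℕ} {F : J' → ℕ → ℕ → ℂ}
  {N D : J' → ℂ → ℂ} {M ρ : ℝ} {G₂ : ℕ → ℕ → ℂ}

theorem gg_ent' (h : ∀ j, LF0 S (F j) (N j) (D j)) (x : J' × Bool) : Ent (gg N D x) := by
  unfold gg
  split_ifs
  · exact (h x.1).entN
  · exact (h x.1).entD

theorem Ds_lin' (hb : ∀ j, Cv S (F j)) {s : ℂ} (hs : 1 < s.re) :
    ∑ j, (c j : ℂ) * Ds (aa S 1 (F j)) (oo S 1) s = Ds (aa S 1 (GG c F)) (oo S 1) s := by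
  unfold Ds
  have h3 : ∀ j ∈ Finset.univ, (c j : ℂ) * ∑' i : PS S × ℕ, aa S 1 (F j) i *
      exp (-(oo S 1 i : ℂ) * s) = ∑' i : PS S × ℕ, (c j : ℂ) * (aa S 1 (F j) i *
      exp (-(oo S 1 i : ℂ) * s)) := fun j _ => tsum_mul_left.symm
  rw [Finset.sum_congr rfl h3, ← Summable.tsum_finsetSum]
  · refine tsum_congr fun i => ?_
    unfold aa GG
    rw [Finset.sum_mul, Finset.sum_mul]
    exact Finset.sum_congr rfl fun j _ => by ring
  · intro j _
    refine Summable.mul_left _ (Summable.of_norm ?_)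
    simp_rw [norm_ds_term]
    exact hb j s.re hs

theorem right_dec (h : ∀ j, LF0 S (F j) (N j) (D j)) (hcv : ∀ j, Cv S (F j))
    (hb : Bnd S (Fd (GG c F) G₂) M ρ) (hsm : Sm S G₂) (h0 : ∀ p : PS S, GG c F p 1 = G₂ p 1) (s : ℂ)
    (hs : 1 / 2 < s.re) :
    mm (ww c) (gg N D) s = 0 ∧ AA (ww c) (gg N D) s = -Ds (aa S 1 (GG c F)) (oo S 1) s := by
  have h1 : DifferentiableOn ℂ (fun s => -Ds (aa S 1 (GG c F)) (oo S 1) s) {s | 1 / 2 < s.re} :=
    (Ds_dec_diff hb hsm h0).neg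
  refine right_of (fun i => (gg_ent' h i).diff) (fun i => (gg_ent' h i).ne) (σ₁ := 1) h1 ?_ s hs
  intro s hs _
  rw [A0_gg]
  have h2 : ∀ j ∈ Finset.univ, (c j : ℂ) * (logDeriv (N j) s - logDeriv (D j) s) =
      -((c j : ℂ) * Ds (aa S 1 (F j)) (oo S 1) s) := by
    intro j _
    rw [(h j).ld s hs]
    ring
  rw [Finset.sum_congr rfl h2, Finset.sum_neg_distrib, Ds_lin' hcv hs]

/-- **the coefficients vanish** -/
theorem zero_dec (h : ∀ j, LF0 S (F j) (N j) (D j)) (hcv : ∀ j, Cv S (F j))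
    (hG : Bnd S (Fd (GG c F) G₂) M ρ) (hsm : Sm S G₂) (h0 : ∀ p : PS S, GG c F p 1 = G₂ p 1)
    (p₀ : PS S) (k₀ : ℕ) : GG c F p₀ (k₀ + 1) = 0 := by
  classical
  choose μ l l' q ε hq hε hl hl' hfe using fun j => (h j).fe
  set i₀ : PS S × ℕ := (p₀, k₀) with hi₀
  set ω : ℝ := oo S 1 i₀ with hω
  have hω0 : 0 < ω := oo_pos (by norm_num) i₀
  have hωe : ω = ((k₀ + 1 : ℕ) : ℝ) * Real.log (p₀ : ℕ) := by
    rw [hω, hi₀]
    unfold oo
    push_cast
    ring
  have hfreq : ∀ x : ℕ, x.Prime → x ∈ S → Real.log x ≠ 0 ∧ ∀ n : ℤ, ω ≠ n * Real.log x := by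
    intro x hx hxS
    have hlog : 0 < Real.log x := Real.log_pos (by exact_mod_cast hx.one_lt)
    refine ⟨hlog.ne', fun n hn => ?_⟩
    have h1 : 0 < (n : ℝ) := by
      by_contra hcon
      push Not at hcon
      have := mul_nonpos_of_nonpos_of_nonneg hcon hlog.le
      linarith
    have h2 : 0 < n := by exact_mod_cast h1
    obtain ⟨m, rfl⟩ := Int.eq_ofNat_of_zero_le h2.le
    rw [hωe] at hn
    have h3 := prime_pow_log p₀.2.1 hx (a := k₀ + 1) (b := m) (by omega) (by exact_mod_cast hn)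
    exact p₀.2.2 (h3.1 ▸ hxS)
  set H : ℂ → ℂ := fun s => ∑ j, (c j : ℂ) * HH (μ j) (l j) (l' j) (q j) s with hH
  have hT : Tame ω H := Tame.sum hω0.ne' Finset.univ fun j _ =>
    (HH_tame hω0.ne' (μ j) (q j) (fun x hx => hfreq x.1 (hl j x hx).1 (hl j x hx).2)
      (fun x hx => hfreq x.1 (hl' j x hx).1 (hl' j x hx).2)).const_mul (c j : ℂ)
  obtain ⟨η₀, hη₀, hT⟩ := hT
  set η : ℝ := min η₀ (1 / 4) / 2 with hη
  have hη1 : 0 < min η₀ (1 / 4) := lt_min hη₀ (by norm_num)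
  have hη0 : 0 < η := by positivity
  have hη2 : η < η₀ := by
    have := min_le_left η₀ (1 / 4)
    linarith
  have hη4 : η < 1 / 4 := by
    have := min_le_right η₀ (1 / 4)
    linarith
  obtain ⟨hc, hn, C1, hC1, hC1b⟩ := hT η hη0 hη2
  obtain ⟨CV, hCV0, hCV⟩ := V_bound
  obtain ⟨CS, hCS0, hCS⟩ := hsm.bound
  have hM0 : 0 ≤ M := hG.M0
  have hr1 := hG.r1
  have hdiff := fun i => (gg_ent' h i).diff
  have hne := fun i => (gg_ent' h i).ne
  set C : ℝ := 1 + C1 + M * ρ ^ 2 * CV + CS with hC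
  have hK0 : 0 ≤ M * ρ ^ 2 * CV := by positivity
  have hset : Setup (ww c) (gg N D) (aa S 1 (GG c F)) (oo S 1) i₀ η H C ((M * ρ ^ 2) ^ 2 / 4) := by
    refine ⟨gg_ent' h, fun i => oo_nonneg 1 i, hω0, ?_, hη0, hη4, by linarith, ?_, ?_, ?_, hn, ?_,
      ?_, ?_⟩
    · rintro ⟨p, k⟩ hne' heq
      apply hne'
      unfold oo at heq
      have h3 := prime_pow_log p.2.1 p₀.2.1 (a := k + 1) (b := k₀ + 1) (by omega) (by
        push_cast
        simpa [hi₀] using heq)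
      rw [hi₀]
      refine Prod.ext (Subtype.ext h3.1) ?_
      have := h3.2
      simp only
      omega
    · exact sum_all hG hsm h0 (by linarith)
    · exact right_dec h hcv hG hsm h0
    · intro s hs hs2
      have hs3 : 1 / 2 < (1 - s).re := by
        rw [sub_re, one_re]
        linarith
      refine AA_of_eq (B := fun s => Ds (aa S 1 (GG c F)) (oo S 1) (1 - s) + H s) hdiff hne ?_ ?_
      · refine ContinuousAt.add ?_ (hc s hs hs2)
        have h3 : ContinuousAt (Ds (aa S 1 (GG c F)) (oo S 1)) (1 - s) :=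
          ((Ds_dec_diff hG hsm h0).differentiableAt
            ((isOpen_lt continuous_const continuous_re).mem_nhds hs3)).continuousAt
        exact ContinuousAt.comp (f := fun s : ℂ => 1 - s) h3 (by fun_prop)
      · have e1 : ∀ᶠ u in 𝓝[≠] s, 1 / 2 < (1 - u).re := by
          refine mem_nhdsWithin_of_mem_nhds ?_
          have : IsOpen {u : ℂ | 1 / 2 < (1 - u).re} :=
            isOpen_lt continuous_const (continuous_re.comp (continuous_const.sub continuous_id))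
          exact this.mem_nhds hs3
        have e2 : ∀ᶠ u in 𝓝[≠] s, ∀ i, gg N D i (1 - u) ≠ 0 := by
          rw [eventually_all]
          exact fun i => ev_refl (fun z => ev_ne (hdiff i) (hne i) z) s
        have e3 : ∀ᶠ u in 𝓝[≠] s, ∀ j, gi (μ j) u ≠ 0 ∧ gi (μ j) (1 - u) ≠ 0 ∧
            ef (l j) u ≠ 0 ∧ ef (l j) (1 - u) ≠ 0 ∧ ef (l' j) u ≠ 0 ∧ ef (l' j) (1 - u) ≠ 0 := by
          rw [eventually_all]
          intro j
          have a1 : ∀ z, ∀ᶠ u in 𝓝[≠] z, gi (μ j) u ≠ 0 := ev_ne (gi_diff _) (gi_ne _)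
          have a2 : ∀ z, ∀ᶠ u in 𝓝[≠] z, ef (l j) u ≠ 0 := ef_ev fun x hx => (hl j x hx).1.one_lt
          have a3 : ∀ z, ∀ᶠ u in 𝓝[≠] z, ef (l' j) u ≠ 0 := ef_ev fun x hx => (hl' j x hx).1.one_lt
          filter_upwards [a1 s, ev_refl a1 s, a2 s, ev_refl a2 s, a3 s, ev_refl a3 s] with
            u b1 b2 b3 b4 b5 b6
          exact ⟨b1, b2, b3, b4, b5, b6⟩
        filter_upwards [e1, e2, e3] with u h1 h2 h3 h4
        have h5 : A0 (ww c) (gg N D) (1 - u) = -Ds (aa S 1 (GG c F)) (oo S 1) (1 - u) := by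
          rw [← AA_eq hdiff hne h2]
          exact (right_dec h hcv hG hsm h0 (1 - u) h1).2
        have h6 : A0 (ww c) (gg N D) u = -A0 (ww c) (gg N D) (1 - u) + H u := by
          rw [A0_gg, A0_gg, hH, ← Finset.sum_neg_distrib, ← Finset.sum_add_distrib]
          refine Finset.sum_congr rfl fun j _ => ?_
          obtain ⟨b1, b2, b3, b4, b5, b6⟩ := h3 j
          have t1 := h4 (j, true)
          have t2 := h4 (j, false)
          have t3 := h2 (j, true)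
          have t4 := h2 (j, false)
          simp only [gg, if_true, Bool.false_eq_true, if_false] at t1 t2 t3 t4
          rw [fe_ld (h j).entN.diff (h j).entD.diff (hq j) (hε j)
            (fun x hx => (hl j x hx).1.ne_zero) (fun x hx => (hl' j x hx).1.ne_zero) (hfe j)
            t1 t3 t2 t4 b1 b2 b3 b4 b5 b6]
          ring
        rw [h6, h5, neg_neg]
    · intro s hs hs2
      rw [Ds_dec hG hsm h0 hs]
      have h1 := hG.norm_le 2 (s := s) hs.le (by push_cast; linarith)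
      have h1' := (hsm.norm_le hs).trans (hCS s.re hs (by linarith))
      refine (norm_add_le _ _).trans ((add_le_add h1 h1').trans ?_)
      have h2 : ((2 : ℕ) : ℝ) * s.re = 2 * s.re := by push_cast; ring
      have h3 := hCV (2 * s.re) (by linarith) (by linarith)
      have h4 : 0 < s.re - 1 / 2 := by linarith
      have h6 : 2 * (M * ρ ^ 2) * ∑' n : ℕ, Λ n * (n : ℝ) ^ (-(2 * s.re)) ≤
          (M * ρ ^ 2 * CV) / (s.re - 1 / 2) := by
        calc 2 * (M * ρ ^ 2) * ∑' n : ℕ, Λ n * (n : ℝ) ^ (-(2 * s.re)) ≤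
          2 * (M * ρ ^ 2) * (CV / (2 * s.re - 1)) := by gcongr
          _ = (M * ρ ^ 2 * CV) / (s.re - 1 / 2) := by
            have : 2 * s.re - 1 = 2 * (s.re - 1 / 2) := by ring
            rw [this]
            field_simp
      rw [h2]
      calc 2 * (M * ρ ^ 2) * ∑' n : ℕ, Λ n * (n : ℝ) ^ (-(2 * s.re)) + CS / (s.re - 1 / 2) ≤
          (M * ρ ^ 2 * CV) / (s.re - 1 / 2) + CS / (s.re - 1 / 2) := by gcongr
        _ = (M * ρ ^ 2 * CV + CS) / (s.re - 1 / 2) := by ring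
        _ ≤ C / (s.re - 1 / 2) := by
            gcongr
            linarith
    · intro s hs hs2 hs3
      refine (hC1b s hs hs2 (by linarith)).trans ?_
      have h4 : 0 < 1 / 2 - s.re := by linarith
      gcongr
      linarith
    · exact fun Z hZ => sq_dec hG hsm h0 hdiff hne
        (fun s hs => (right_dec h hcv hG hsm h0 s hs).2) Z hZ
  have hz := hset.zero
  unfold aa at hz
  have hlog : ((Real.log (p₀ : ℕ) : ℝ) : ℂ) ≠ 0 := by exact_mod_cast p₀.log_pos.ne'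
  exact (mul_eq_zero.1 hz).resolve_right hlog

/-- if the coefficients cancel the orders cancel -/
theorem mm_zero' (h : ∀ j, LF0 S (F j) (N j) (D j)) (hcv : ∀ j, Cv S (F j))
    (h0 : ∀ (p : PS S) (k : ℕ), GG c F p (k + 1) = 0) (z : ℂ) : mm (ww c) (gg N D) z = 0 := by
  have h1 : DifferentiableOn ℂ (fun _ : ℂ => (0 : ℂ)) {s : ℂ | z.re - 1 < s.re} :=
    differentiableOn_const _
  refine (right_of (fun i => (gg_ent' h i).diff) (fun i => (gg_ent' h i).ne) (σ₁ := 1) h1 ?_ z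
    (by linarith)).1
  intro s hs _
  rw [A0_gg]
  have h2 : ∀ j ∈ Finset.univ, (c j : ℂ) * (logDeriv (N j) s - logDeriv (D j) s) =
      -((c j : ℂ) * Ds (aa S 1 (F j)) (oo S 1) s) := by
    intro j _
    rw [(h j).ld s hs]
    ring
  rw [Finset.sum_congr rfl h2, Finset.sum_neg_distrib, Ds_lin' hcv hs]
  unfold Ds
  rw [neg_eq_zero, ← tsum_zero]
  refine tsum_congr fun i => ?_
  unfold aa
  rw [h0]
  ring

end

end Pool.Agent.U253.GAP
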