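import Pool.Agent.U253.GAP.Dec
import Pool.Agent.U253.EEA.Rel2

/-!
# The relation principle without a uniform bound of the parameters
-/

set_option autoImplicit false

namespace Pool.Agent.U253.GAP

open Filter Topology Complex Set Pool.Agent.N210.FV Pool.Agent.N210.FW Pool.Agent.N845.SP
open Pool.Agent.U253.EEA (Half FEq shm bt2 norm_pit norm_pit' ps_bt2 bt2_le mo_app shm_zero sum_bt2 Half.pair)

section

variable {κ : Type*} {I : Finset κ} {β : ℕ → κ → ℂ} {S S' : Finset ℕ} {F : ℕ → ℕ → ℂ}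

theorem summ_bt' (h : Cv S F) {σ : ℝ} (hσ : 1 < σ) :
    Summable fun i : PS S × ℕ => ‖bt S F i‖ * Real.exp (-(oo S 1 i * σ)) := by
  have h1 := (h σ hσ).mul_left (1 / Real.log 2)
  refine Summable.of_nonneg_of_le (fun i => by positivity) (fun i => ?_) h1
  have hl : Real.log 2 ≤ Real.log (i.1 : ℕ) := Real.log_le_log (by norm_num)
    (by exact_mod_cast i.1.2.1.two_le)
  have hl2 : 0 < Real.log 2 := Real.log_pos (by norm_num)
  have h2 : ‖bt S F i‖ ≤ 1 / Real.log 2 * ‖aa S 1 F i‖ := by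
    unfold bt aa
    rw [norm_div, norm_mul, Complex.norm_real, Real.norm_of_nonneg i.1.log_pos.le]
    have h3 : (1 : ℝ) ≤ ‖((i.2 : ℂ) + 1)‖ := by
      have : ((i.2 : ℂ) + 1) = ((i.2 + 1 : ℝ) : ℂ) := by push_cast; rfl
      rw [this, Complex.norm_real, Real.norm_of_nonneg (by positivity)]
      have : (0 : ℝ) ≤ i.2 := Nat.cast_nonneg _
      linarith
    calc ‖F i.1 (i.2 + 1)‖ / ‖((i.2 : ℂ) + 1)‖ ≤ ‖F i.1 (i.2 + 1)‖ := div_le_self (norm_nonneg _) h3
      _ = 1 / Real.log 2 * (‖F i.1 (i.2 + 1)‖ * Real.log 2) := by field_simp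
      _ ≤ 1 / Real.log 2 * (‖F i.1 (i.2 + 1)‖ * Real.log (i.1 : ℕ)) := by gcongr
  calc _ ≤ (1 / Real.log 2 * ‖aa S 1 F i‖) * Real.exp (-(oo S 1 i * σ)) := by gcongr
    _ = _ := by ring

/-- the sum over the powers of one prime -/
theorem one_prime' (p : PS S) (hβ : ∀ i ∈ I, ‖β p i‖ < (p : ℕ)) {s : ℂ} (hs : 1 < s.re) :
    exp (∑' k : ℕ, bt S (ps I β) (p, k) * exp (-(oo S 1 (p, k) : ℂ) * s)) =
      ∏ i ∈ I, (1 - β p i * ((p : ℕ) : ℂ) ^ (-s))⁻¹ := by
  have hu : ∀ i ∈ I, ‖β p i * ((p : ℕ) : ℂ) ^ (-s)‖ < 1 := by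
    intro i hi
    have h1 : ‖((p : ℕ) : ℂ) ^ (-s)‖ = ((p : ℕ) : ℝ) ^ (-s.re) := by
      rw [← ofReal_natCast, Complex.norm_cpow_eq_rpow_re_of_pos p.pos, neg_re]
    rw [norm_mul, h1]
    have h3 := hβ i hi
    have h4 : 0 < ((p : ℕ) : ℝ) ^ (-s.re) := Real.rpow_pos_of_pos p.pos _
    have h5 : ((p : ℕ) : ℝ) ^ (-s.re) ≤ ((p : ℕ) : ℝ)⁻¹ := by
      rw [← Real.rpow_neg_one]
      exact Real.rpow_le_rpow_of_exponent_le p.one_lt.le (by linarith)
    calc ‖β p i‖ * ((p : ℕ) : ℝ) ^ (-s.re) < ((p : ℕ) : ℝ) * ((p : ℕ) : ℝ) ^ (-s.re) :=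
          mul_lt_mul_of_pos_right h3 h4
      _ ≤ ((p : ℕ) : ℝ) * ((p : ℕ) : ℝ)⁻¹ := mul_le_mul_of_nonneg_left h5 p.pos.le
      _ = 1 := mul_inv_cancel₀ p.pos.ne'
  have h1 : ∀ k : ℕ, bt S (ps I β) (p, k) * exp (-(oo S 1 (p, k) : ℂ) * s) =
      ∑ i ∈ I, (β p i * ((p : ℕ) : ℂ) ^ (-s)) ^ (k + 1) / (k + 1) := by
    intro k
    unfold bt ps oo
    rw [Finset.sum_div, Finset.sum_mul]
    refine Finset.sum_congr rfl fun i _ => ?_
    rw [mul_pow, cp p.2.1.ne_zero, ← exp_nat_mul]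
    push_cast
    have e : -(((k : ℂ) + 1) * log ((p : ℕ) : ℂ)) * s = ((k : ℂ) + 1) * (-log ((p : ℕ) : ℂ) * s) := by
      ring
    simp only [e]
    ring
  simp_rw [h1]
  rw [Summable.tsum_finsetSum (fun i hi => (exp_log_series (hu i hi)).summable), exp_sum]
  refine Finset.prod_congr rfl fun i hi => ?_
  rw [(exp_log_series (hu i hi)).tsum_eq, exp_neg_log (hu i hi)]

/-- the partial Euler products converge -/
theorem eul' (hb : Cv S (ps I β)) (hβ : ∀ p : PS S, ∀ i ∈ I, ‖β p i‖ < (p : ℕ)) {s : ℂ}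
    (hs : 1 < s.re) :
    Tendsto (fun X : ℕ => ∏ p ∈ (Finset.range X).filter (fun p => p.Prime ∧ p ∉ S), ∏ i ∈ I,
      (1 - β p i * (p : ℂ) ^ (-s))⁻¹) atTop (𝓝 (exp (Ds (bt S (ps I β)) (oo S 1) s))) := by
  classical
  have h1 : Summable fun i : PS S × ℕ => bt S (ps I β) i * exp (-(oo S 1 i : ℂ) * s) := by
    refine Summable.of_norm ((summ_bt' hb hs).congr fun i => ?_)
    rw [norm_mul, Complex.norm_exp, neg_mul, neg_re, re_ofReal_mul]
  have h2 := h1.hasSum.prod_fiberwise (fun p => (h1.prod_factor p).hasSum)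
  set g : ℕ → ℂ := fun p => if hp : p.Prime ∧ p ∉ S then
    ∑' k : ℕ, bt S (ps I β) (⟨p, hp⟩, k) * exp (-(oo S 1 (⟨p, hp⟩, k) : ℂ) * s) else 0 with hg
  have h3 : HasSum g (Ds (bt S (ps I β)) (oo S 1) s) := by
    rw [← Function.Injective.hasSum_iff (g := fun p : PS S => (p : ℕ)) Subtype.val_injective]
    · have e : (g ∘ fun p : PS S => (p : ℕ)) = fun p : PS S =>
          ∑' k : ℕ, bt S (ps I β) (p, k) * exp (-(oo S 1 (p, k) : ℂ) * s) := by
        funext p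
        simp only [Function.comp_apply, hg]
        rw [dif_pos p.2]
      rw [e]
      exact h2
    · intro x hx
      simp only [hg]
      rw [dif_neg]
      intro hp
      exact hx ⟨⟨x, hp⟩, rfl⟩
  have h4 := (continuous_exp.tendsto _).comp h3.tendsto_sum_nat
  refine h4.congr fun X => ?_
  simp only [Function.comp_apply]
  rw [exp_sum, Finset.prod_filter]
  refine Finset.prod_congr rfl fun p _ => ?_
  simp only [hg]
  split_ifs with hp
  · exact one_prime' ⟨p, hp⟩ (hβ ⟨p, hp⟩) hs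
  · exact exp_zero

/-- enlarging `S` -/
theorem nd_eq' (hSS : S ⊆ S') (hb : Cv S' (ps I β))
    (hβ : ∀ p : PS S', ∀ i ∈ I, ‖β p i‖ < (p : ℕ))
    {N D : ℂ → ℂ} (hN : Differentiable ℂ N) (hD : Differentiable ℂ D)
    (hDne : ∀ s : ℂ, 1 < s.re → D s ≠ 0)
    (heul : ∀ s : ℂ, 1 < s.re → Tendsto (fun X : ℕ =>
      ∏ p ∈ (Finset.range X).filter (fun p => p.Prime ∧ p ∉ S), ∏ i ∈ I,
        (1 - β p i * (p : ℂ) ^ (-s))⁻¹) atTop (𝓝 (N s / D s))) {s : ℂ} (hs : 1 < s.re) :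
    N s * ef (lst I β S S') s = D s * exp (Ds (bt S' (ps I β)) (oo S' 1) s) := by
  classical
  have hl1 : ∀ x ∈ lst I β S S', 1 < x.1 := fun x hx => (lst_mem hx).1.one_lt
  have hl0 : ∀ x ∈ lst I β S S', x.1 ≠ 0 := fun x hx => (lst_mem hx).1.ne_zero
  have key : ∀ s : ℂ, 1 < s.re → ef (lst I β S S') s ≠ 0 →
      N s * ef (lst I β S S') s = D s * exp (Ds (bt S' (ps I β)) (oo S' 1) s) := by
    intro s hs hE
    have h1 := heul s hs
    have h2 := (eul' hb hβ hs).mul_const (ef (lst I β S S') s)⁻¹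
    have h3 : N s / D s = exp (Ds (bt S' (ps I β)) (oo S' 1) s) * (ef (lst I β S S') s)⁻¹ := by
      refine tendsto_nhds_unique h1 (h2.congr' ?_)
      filter_upwards [eventually_gt_atTop (S'.sup id)] with X hX
      have h4 : (Finset.range X).filter (fun p => p.Prime ∧ p ∉ S) =
          (Finset.range X).filter (fun p => p.Prime ∧ p ∉ S') ∪ (S' \ S).filter Nat.Prime := by
        ext p
        simp only [Finset.mem_filter, Finset.mem_range, Finset.mem_union, Finset.mem_sdiff]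
        constructor
        · rintro ⟨a, b, c⟩
          by_cases hp : p ∈ S'
          · exact Or.inr ⟨⟨hp, c⟩, b⟩
          · exact Or.inl ⟨a, b, hp⟩
        · rintro (⟨a, b, c⟩ | ⟨⟨a, b⟩, c⟩)
          · exact ⟨a, b, fun h => c (hSS h)⟩
          · exact ⟨lt_of_le_of_lt (Finset.le_sup (f := id) a) hX, c, b⟩
      have h5 : Disjoint ((Finset.range X).filter (fun p => p.Prime ∧ p ∉ S'))
          ((S' \ S).filter Nat.Prime) := by
        rw [Finset.disjoint_left]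
        intro p hp hp2
        simp only [Finset.mem_filter, Finset.mem_sdiff] at hp hp2
        exact hp.2.2 hp2.1.1
      rw [h4, Finset.prod_union h5, ef_lst]
      congr 1
      rw [← Finset.prod_inv_distrib]
      exact Finset.prod_congr rfl fun p _ => by rw [Finset.prod_inv_distrib]
    have hD0 := hDne s hs
    rw [div_eq_iff hD0] at h3
    rw [h3]
    field_simp
  by_cases hE : ef (lst I β S S') s = 0
  · -- by continuity
    have h1 : Tendsto (fun u => N u * ef (lst I β S S') u) (𝓝[≠] s)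
        (𝓝 (N s * ef (lst I β S S') s)) :=
      ((hN.mul (ef_diff hl0)).continuous.tendsto s).mono_left nhdsWithin_le_nhds
    have hd : HasDerivAt (Ds (bt S' (ps I β)) (oo S' 1)) _ s :=
      Ds_hasDeriv (σ := (1 + s.re) / 2) (summ_bt' hb (by linarith)) (fun i => oo_nonneg 1 i)
        (by linarith)
    have h2 : Tendsto (fun u => D u * exp (Ds (bt S' (ps I β)) (oo S' 1) u)) (𝓝[≠] s)
        (𝓝 (D s * exp (Ds (bt S' (ps I β)) (oo S' 1) s))) :=
      (hD.continuous.continuousAt.mul hd.continuousAt.cexp).tendsto.mono_left nhdsWithin_le_nhds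
    refine tendsto_nhds_unique h1 (h2.congr' ?_)
    have h3 : ∀ᶠ u in 𝓝[≠] s, 1 < u.re :=
      mem_nhdsWithin_of_mem_nhds ((isOpen_lt continuous_const continuous_re).mem_nhds hs)
    filter_upwards [ef_ev hl1 s, h3] with u hu hu2
    exact (key u hu2 hu).symm
  · exact key s hs hE

/-- the logarithmic derivative of the Euler product -/
theorem ld_eul' (hSS : S ⊆ S') (hb : Cv S' (ps I β))
    (hβ : ∀ p : PS S', ∀ i ∈ I, ‖β p i‖ < (p : ℕ))
    {N D : ℂ → ℂ} (hN : Differentiable ℂ N) (hD : Differentiable ℂ D)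
    (hDne : ∀ s : ℂ, 1 < s.re → D s ≠ 0)
    (heul : ∀ s : ℂ, 1 < s.re → Tendsto (fun X : ℕ =>
      ∏ p ∈ (Finset.range X).filter (fun p => p.Prime ∧ p ∉ S), ∏ i ∈ I,
        (1 - β p i * (p : ℂ) ^ (-s))⁻¹) atTop (𝓝 (N s / D s))) {s : ℂ} (hs : 1 < s.re) :
    logDeriv (fun s => N s * ef (lst I β S S') s) s - logDeriv D s =
      -Ds (aa S' 1 (ps I β)) (oo S' 1) s := by
  have hd : HasDerivAt (Ds (bt S' (ps I β)) (oo S' 1)) _ s :=
    Ds_hasDeriv (σ := (1 + s.re) / 2) (summ_bt' hb (by linarith)) (fun i => oo_nonneg 1 i)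
      (by linarith)
  have h1 : (fun s => N s * ef (lst I β S S') s) =ᶠ[𝓝 s]
      fun s => D s * exp (Ds (bt S' (ps I β)) (oo S' 1) s) := by
    filter_upwards [(isOpen_lt continuous_const continuous_re).mem_nhds hs] with u hu
    exact nd_eq' hSS hb hβ hN hD hDne heul hu
  rw [(logDeriv_congr_nhds h1).eq_of_nhds, logDeriv_mul (f := D) (g := fun s =>
    exp (Ds (bt S' (ps I β)) (oo S' 1) s)) s (hDne s hs) (exp_ne_zero _) (hD s)
    hd.cexp.differentiableAt]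
  have h2 : logDeriv (fun s => exp (Ds (bt S' (ps I β)) (oo S' 1) s)) s =
      -Ds (aa S' 1 (ps I β)) (oo S' 1) s := by
    rw [logDeriv_apply, hd.cexp.deriv, mul_div_cancel_left₀ _ (exp_ne_zero _)]
    simp_rw [bt_mul]
  rw [h2]
  ring

end

theorem entN' {S S' I : Finset ℕ} {β : ℕ → ℕ → ℂ} {μ : List ℂ} {N D : ℂ → ℂ}
    (h : LG S I β μ N D) (hSS : S ⊆ S') (hb : Cv S' (ps I β))
    (hβ : ∀ p : PS S', ∀ i ∈ I, ‖β p i‖ < (p : ℕ)) : Ent N := by
  have hne : ∃ s, N s ≠ 0 := by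
    have h1 := nd_eq' hSS hb hβ h.diffN h.diffD h.ne h.euler (s := 2) (by norm_num)
    refine ⟨2, fun h0 => ?_⟩
    rw [h0, zero_mul] at h1
    exact mul_ne_zero (h.ne 2 (by norm_num)) (exp_ne_zero _) h1.symm
  obtain ⟨C, hC⟩ := h.order
  exact ⟨h.diffN, hne, C, fun s => (hC s).1⟩

theorem toLF0' {S S' I : Finset ℕ} {β : ℕ → ℕ → ℂ} {μ : List ℂ} {N D : ℂ → ℂ}
    (h : LG S I β μ N D) (hSS : S ⊆ S') (hb : Cv S' (ps I β))
    (hβ : ∀ p : PS S', ∀ i ∈ I, ‖β p i‖ < (p : ℕ)) :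
    LF0 S' (ps I β) (fun s => N s * ef (lst I β S S') s) D := by
  have hl1 : ∀ x ∈ lst I β S S', 1 < x.1 := fun x hx => (lst_mem hx).1.one_lt
  refine ⟨(entN' h hSS hb hβ).mul (ef_ent hl1), h.entD, fun s hs => ?_, ?_⟩
  · exact ld_eul' hSS hb hβ h.diffN h.diffD h.ne h.euler hs
  · obtain ⟨l, l', q, ε, hq, hε, hl, hl', hfe⟩ := h.fe
    refine ⟨μ, l ++ lst I β S S', l', q, ε, hq, hε, ?_, ?_, ?_⟩
    · intro x hx
      rcases List.mem_append.1 hx with h1 | h1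
      · exact ⟨(hl x h1).1, hSS (hl x h1).2⟩
      · exact lst_mem h1
    · intro x hx
      exact ⟨(hl' x hx).1, hSS (hl' x hx).2⟩
    · intro s
      rw [ef_append, ef_append]
      linear_combination (ef (lst I β S S') s * ef (lst I β S S') (1 - s)) * hfe s

section

variable {J : Type*} [Fintype J] {S S₁ : Finset ℕ} {Ix : J → Finset ℕ}
    {β : J → ℕ → ℕ → ℂ} {μ : J → List ℂ} {N D : J → ℂ → ℂ} {c : J → ℝ}

/-- the orders of the functional equations -/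
theorem ident' (hL : ∀ j, LG S (Ix j) (β j) (μ j) (N j) (D j))
    (hSS : S ⊆ S₁) (hb : ∀ j, Cv S₁ (ps (Ix j) (β j)))
    (hβ : ∀ j, ∀ p : PS S₁, ∀ i ∈ Ix j, ‖β j p i‖ < (p : ℕ))
    (hall : ∀ (p : PS S₁) (n : ℕ), GG c (fun j => ps (Ix j) (β j)) p (n + 1) = 0) :
    ∃ Sp : ℂ → ℝ, (∀ T : List ℝ, (∀ p ∈ S, p.Prime → 2 * Real.pi / Real.log p ∈ T) → Kill T Sp) ∧
      ∀ z, ∑ j, c j * ((mo (gi (μ j)) (1 - z) : ℝ) - mo (gi (μ j)) z) + Sp z =
        ∑ p ∈ (S₁ \ S).filter Nat.Prime, ph Ix β c p z := by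
  classical
  have hLF : ∀ j, LF0 S₁ (ps (Ix j) (β j)) (fun s => N j s * ef (lst (Ix j) (β j) S S₁) s) (D j) :=
    fun j => toLF0' (hL j) hSS (hb j) (hβ j)
  have hentN : ∀ j, Ent (N j) := fun j => entN' (hL j) hSS (hb j) (hβ j)
  have hmm := mm_zero' hLF hb (c := c) hall
  simp only [mm_gg] at hmm
  have hl1 : ∀ j, ∀ x ∈ lst (Ix j) (β j) S S₁, 1 < x.1 := fun j x hx => (lst_mem hx).1.one_lt
  have hmoN : ∀ j z, mo (fun s => N j s * ef (lst (Ix j) (β j) S S₁) s) z =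
      mo (N j) z + mo (ef (lst (Ix j) (β j) S S₁)) z := fun j z =>
    mo_mul (hentN j).diff (hentN j).ne (ef_ent (hl1 j)).diff (ef_ent (hl1 j)).ne z
  simp only [hmoN] at hmm
  choose l l' q ε hq hε hlp hlp' hfe using fun j => (hL j).fe
  have hord : ∀ j z, mo (gi (μ j)) (1 - z) + mo (ef (l j)) (1 - z) + mo (ef (l' j)) z +
      (mo (N j) z + mo (D j) (1 - z)) = mo (gi (μ j)) z + mo (ef (l j)) z +
      mo (ef (l' j)) (1 - z) + (mo (N j) (1 - z) + mo (D j) z) := fun j z =>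
    fe_mo (hentN j) (hL j).entD (hq j) (hε j) (fun x hx => (hlp j x hx).1.one_lt)
      (fun x hx => (hlp' j x hx).1.one_lt) (hfe j) z
  have hbz : ∀ z, ∑ j, c j * (mo (ef (lst (Ix j) (β j) S S₁)) z : ℝ) =
      ∑ p ∈ (S₁ \ S).filter Nat.Prime, Bm Ix β c p ((p : ℂ) ^ z) := by
    intro z
    simp only [mo_lst, Bm]
    rw [Finset.sum_comm]
    refine Finset.sum_congr rfl fun j _ => ?_
    rw [← Finset.mul_sum]
    congr 1
    push_cast
    rfl
  refine ⟨fun z => ∑ j, c j * (((mo (ef (l j)) (1 - z) : ℝ) + (-1) * mo (ef (l j)) z) +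
    ((mo (ef (l' j)) z : ℝ) + (-1) * mo (ef (l' j)) (1 - z))), fun T hT => ?_, fun z => ?_⟩
  · refine Kill.finset Finset.univ fun j _ => ?_
    obtain ⟨a1, a2⟩ := ef_kill (fun x hx => (hlp j x hx).1.one_lt)
      (L := T) fun x hx => hT x.1 (hlp j x hx).2 (hlp j x hx).1
    obtain ⟨b1, b2⟩ := ef_kill (fun x hx => (hlp' j x hx).1.one_lt)
      (L := T) fun x hx => hT x.1 (hlp' j x hx).2 (hlp' j x hx).1
    exact ((a2.add (a1.const_mul (-1))).add (b1.add (b2.const_mul (-1)))).const_mul (c j)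
  · have h1 := hmm z
    have h2 := hmm (1 - z)
    have h3 := hbz z
    have h4 := hbz (1 - z)
    have h5 : ∀ j, ((mo (gi (μ j)) (1 - z) : ℝ) - mo (gi (μ j)) z) +
        (((mo (ef (l j)) (1 - z) : ℝ) + (-1) * mo (ef (l j)) z) +
        ((mo (ef (l' j)) z : ℝ) + (-1) * mo (ef (l' j)) (1 - z))) =
        ((mo (N j) (1 - z) : ℝ) - mo (D j) (1 - z)) - ((mo (N j) z : ℝ) - mo (D j) z) := by
      intro j
      have h6 := hord j z
      have h7 : ((mo (gi (μ j)) (1 - z) + mo (ef (l j)) (1 - z) + mo (ef (l' j)) z +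
        (mo (N j) z + mo (D j) (1 - z)) : ℕ) : ℝ) = ((mo (gi (μ j)) z + mo (ef (l j)) z +
        mo (ef (l' j)) (1 - z) + (mo (N j) (1 - z) + mo (D j) z) : ℕ) : ℝ) := by
        exact_mod_cast h6
      push_cast at h7
      linarith only [h7]
    rw [← Finset.sum_add_distrib]
    have h8 : ∀ j ∈ Finset.univ, c j * ((mo (gi (μ j)) (1 - z) : ℝ) - mo (gi (μ j)) z) +
        c j * (((mo (ef (l j)) (1 - z) : ℝ) + (-1) * mo (ef (l j)) z) +
        ((mo (ef (l' j)) z : ℝ) + (-1) * mo (ef (l' j)) (1 - z))) =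
        c j * (((mo (N j) (1 - z) : ℝ) - mo (D j) (1 - z)) - ((mo (N j) z : ℝ) - mo (D j) z)) := by
      intro j _
      rw [← h5 j]
      ring
    rw [Finset.sum_congr rfl h8]
    simp only [ph, Finset.sum_sub_distrib]
    rw [← h3, ← h4]
    push_cast at h1 h2
    simp only [mul_sub, mul_add, Finset.sum_add_distrib, Finset.sum_sub_distrib] at h1 h2 ⊢
    linarith only [h1, h2]

/-- **A real relation between the traces outside a finite set holds at all powers at all unramified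
primes, and at infinity.** -/
theorem rel_all' (hL : ∀ j, LG S (Ix j) (β j) (μ j) (N j) (D j))
    (hSS : S ⊆ S₁) (hb : ∀ j, Cv S₁ (ps (Ix j) (β j)))
    (hβ : ∀ j, ∀ p : PS S₁, ∀ i ∈ Ix j, ‖β j p i‖ < (p : ℕ))
    (hall : ∀ (p : PS S₁) (n : ℕ), GG c (fun j => ps (Ix j) (β j)) p (n + 1) = 0)
    (hsym : ∀ j, ∀ p : ℕ, p.Prime → p ∉ S → ∀ x : ℂ, x ≠ 0 →
      (open Classical in ∑ i ∈ Ix j, if β j p i = x then (1 : ℝ) else 0) =
      (open Classical in ∑ i ∈ Ix j, if β j p i = x⁻¹ then (1 : ℝ) else 0)) :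
    (∀ p : ℕ, p.Prime → p ∉ S → ∀ n : ℕ, ∑ j, (c j : ℂ) * ps (Ix j) (β j) p (n + 1) = 0) ∧
    ∀ z : ℂ, ∑ j, c j * ((mo (gi (μ j)) (1 - z) : ℝ) - mo (gi (μ j)) z) = 0 := by
  classical
  obtain ⟨Sp, hSp, hid⟩ := ident' hL hSS hb hβ hall
  have hLz := gam_zero hSp hSS hid
  have hid2 : ∀ z, Sp z = ∑ p ∈ (S₁ \ S).filter Nat.Prime, ph Ix β c p z := by
    intro z
    rw [← hid z, hLz z, zero_add]
  refine ⟨fun p hpp hpS n => ?_, hLz⟩
  by_cases hp1 : p ∈ S₁
  · have hB : ∀ x : ℂ, x ≠ 0 → Bm Ix β c p x = 0 := fun x hx =>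
      Bm_zero hpp (fun x hx => by
        unfold Bm
        refine Finset.sum_congr rfl fun j _ => ?_
        rw [hsym j p hpp hpS x hx]) (fun z => ph_zero hSp hSS hid2
        (Finset.mem_filter.2 ⟨Finset.mem_sdiff.2 ⟨hp1, hpS⟩, hpp⟩) z) hx
    have h1 := Bm_sum (Ix := Ix) (β := β) (c := c) p (fun x => x ^ (n + 1))
      (X := Finset.univ.biUnion fun j => (Ix j).image fun i => β j p i) (fun j i hi => by
        rw [Finset.mem_biUnion]
        exact ⟨j, Finset.mem_univ _, Finset.mem_image.2 ⟨i, hi, rfl⟩⟩)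
    unfold ps
    rw [h1]
    refine Finset.sum_eq_zero fun x _ => ?_
    by_cases hx : x = 0
    · rw [hx]
      simp
    · rw [hB x hx]
      simp
  · exact hall ⟨p, hpp, hp1⟩ n

end

/-! ### L-functions which are not self-dual -/

/-- **the relation principle**, with a small error, for L-functions which are not self-dual -/
theorem rel_pair' {J : Type*} [Fintype J] {S S₁ : Finset ℕ} {n : J → ℕ}
    {β β' : J → ℕ → ℕ → ℂ} {μ μ' : J → List ℂ} {N D N' D' : J → ℂ → ℂ} {c : J → ℝ} {M ρ : ℝ}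
    (hL : ∀ j, Half S (n j) (β j) (N j) (D j)) (hL' : ∀ j, Half S (n j) (β' j) (N' j) (D' j))
    (hF : ∀ j, FEq S (μ j) (μ' j) (N j) (D j) (N' j) (D' j)) (hSS : S ⊆ S₁)
    (hcv : ∀ j, ∀ t : ℝ, Cv S₁ (ps (Finset.range (n j + n j)) (bt2 t (n j) (β j) (β' j))))
    (hβ : ∀ j, ∀ p : PS S₁, ∀ i < n j, ‖β j p i‖ < (p : ℕ) ∧ ‖β' j p i‖ < (p : ℕ))
    (hinv : ∀ j, ∀ p : ℕ, p.Prime → p ∉ S → ∀ i < n j, β' j p i = (β j p i)⁻¹)
    (hdec : ∀ t : ℝ, ∃ G₂ : ℕ → ℕ → ℂ, Sm S₁ G₂ ∧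
      Bnd S₁ (Fd (GG c fun j => ps (Finset.range (n j + n j)) (bt2 t (n j) (β j) (β' j))) G₂) M ρ ∧
      ∀ p : PS S₁, GG c (fun j => ps (Finset.range (n j + n j)) (bt2 t (n j) (β j) (β' j))) p 1 =
        G₂ p 1) :
    (∀ p : ℕ, p.Prime → p ∉ S → ∀ k : ℕ,
      ∑ j, (c j : ℂ) * ps (Finset.range (n j)) (β j) p (k + 1) = 0) ∧
    ∀ z : ℂ, ∑ j, c j * (((mo (gi (μ j)) (1 - z) : ℝ) + mo (gi (μ' j)) (1 - z)) -
      (mo (gi (μ j)) z + mo (gi (μ' j)) z)) = 0 := by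
  classical
  have key : ∀ t : ℝ, (∀ p : ℕ, p.Prime → p ∉ S → ∀ k : ℕ, ∑ j, (c j : ℂ) *
      ps (Finset.range (n j + n j)) (bt2 t (n j) (β j) (β' j)) p (k + 1) = 0) ∧
      ∀ z : ℂ, ∑ j, c j * ((mo (gi (shm (t * I) (μ j) ++ shm (-(t * I)) (μ' j))) (1 - z) : ℝ) -
        mo (gi (shm (t * I) (μ j) ++ shm (-(t * I)) (μ' j))) z) = 0 := by
    intro t
    obtain ⟨G₂, hsm, hb, h0⟩ := hdec t
    have hLG := fun j => (hL j).pair (hL' j) (hF j) t
    have hle : ∀ j, ∀ p : PS S₁, ∀ i ∈ Finset.range (n j + n j),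
        ‖bt2 t (n j) (β j) (β' j) p i‖ < (p : ℕ) := by
      intro j p i hi
      rw [Finset.mem_range] at hi
      unfold bt2
      split_ifs with h1
      · rw [norm_mul, norm_pit' p.2.1.pos, mul_one]
        exact (hβ j p i h1).1
      · rw [norm_mul, norm_pit p.2.1.pos, mul_one]
        exact (hβ j p (i - n j) (by omega)).2
    refine rel_all' (S₁ := S₁) hLG hSS (fun j => hcv j t) hle
      (fun p k => zero_dec (c := c) (fun j => toLF0' (hLG j) hSS (hcv j t) (hle j))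
        (fun j => hcv j t) hb hsm h0 p k) (fun j p hp hpS x hx => ?_)
    have hp0 : (p : ℂ) ≠ 0 := by exact_mod_cast hp.ne_zero
    rw [sum_bt2 t (n j) (β j) (β' j) p fun y => if y = x then (1 : ℝ) else 0,
      sum_bt2 t (n j) (β j) (β' j) p fun y => if y = x⁻¹ then (1 : ℝ) else 0, add_comm]
    have hinv' : ∀ i ∈ Finset.range (n j), β' j p i * (p : ℂ) ^ (t * I) =
        (β j p i * (p : ℂ) ^ (-(t * I)))⁻¹ := by
      intro i hi
      rw [hinv j p hp hpS i (Finset.mem_range.1 hi), cpow_neg, mul_inv, inv_inv]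
    congr 1
    · refine Finset.sum_congr rfl fun i hi => ?_
      rw [hinv' i hi]
      congr 1
      rw [eq_iff_iff, inv_eq_iff_eq_inv]
    · refine Finset.sum_congr rfl fun i hi => ?_
      rw [hinv' i hi]
      congr 1
      rw [eq_iff_iff, inv_inj]
  refine ⟨fun p hp hpS k => ?_, fun z => ?_⟩
  · have hp0 : (p : ℂ) ≠ 0 := by exact_mod_cast hp.ne_zero
    have hlog : 0 < Real.log p := Real.log_pos (by exact_mod_cast hp.one_lt)
    set X := ∑ j, (c j : ℂ) * ps (Finset.range (n j)) (β j) p (k + 1) with hX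
    set Y := ∑ j, (c j : ℂ) * ps (Finset.range (n j)) (β' j) p (k + 1) with hY
    have h1 : ∀ t : ℝ, ((p : ℂ) ^ (-(t * I))) ^ (k + 1) * X + ((p : ℂ) ^ (t * I)) ^ (k + 1) * Y = 0 := by
      intro t
      have h2 := (key t).1 p hp hpS k
      simp only [ps_bt2, mul_add, Finset.sum_add_distrib] at h2
      rw [hX, hY, Finset.mul_sum, Finset.mul_sum, ← h2]
      congr 1
      · exact Finset.sum_congr rfl fun j _ => by ring
      · exact Finset.sum_congr rfl fun j _ => by ring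
    have h0 := h1 0
    simp only [ofReal_zero, zero_mul, neg_zero, cpow_zero, one_pow, one_mul] at h0
    have h2 := h1 (Real.pi / (2 * (k + 1) * Real.log p))
    have e1 : ((p : ℂ) ^ ((Real.pi / (2 * (k + 1) * Real.log p) : ℝ) * I)) ^ (k + 1) = I := by
      rw [← cpow_nat_mul, cpow_def_of_ne_zero hp0, ← natCast_log]
      have : ((Real.log p : ℝ) : ℂ) * (((k + 1 : ℕ) : ℂ) *
          (((Real.pi / (2 * (k + 1) * Real.log p) : ℝ) : ℂ) * I)) = Real.pi / 2 * I := by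
        have hl : ((Real.log p : ℝ) : ℂ) ≠ 0 := by exact_mod_cast hlog.ne'
        have hk : ((k : ℂ) + 1) ≠ 0 := by exact_mod_cast Nat.succ_ne_zero k
        push_cast
        have hlp : Complex.log (p : ℂ) = ((Real.log p : ℝ) : ℂ) := by rw [natCast_log]
        rw [hlp]
        field_simp
      rw [this, exp_pi_div_two_mul_I]
    have e2 : ((p : ℂ) ^ (-((Real.pi / (2 * (k + 1) * Real.log p) : ℝ) * I))) ^ (k + 1) = -I := by
      rw [cpow_neg, inv_pow, e1, inv_I]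
    rw [e1, e2] at h2
    have h3 : X = Y := by
      have h4 : I * (Y - X) = 0 := by linear_combination h2
      rcases mul_eq_zero.1 h4 with h5 | h5
      · exact absurd h5 I_ne_zero
      · exact (sub_eq_zero.1 h5).symm
    rw [← h3] at h0
    have h4 : 2 * X = 0 := by linear_combination h0
    simpa using h4
  · have h1 := (key 0).2 z
    simp only [ofReal_zero, zero_mul, neg_zero, shm_zero, mo_app] at h1
    push_cast at h1
    exact h1

end Pool.Agent.U253.GAP
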