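import Pool.Agent.U253.GAP.Abel
import Pool.Agent.U253.GAP.Rel

/-!
# Small parts of the coefficients
-/

set_option autoImplicit false

namespace Pool.Agent.U253.GAP

open Filter Topology Asymptotics Pool.Agent.N210.FV Pool.Agent.N210.FW

/-- the sum of `v p log p` over the primes up to `X` is `o(√X)` -/
def Lit (S : Finset ℕ) (v : ℕ → ℝ) : Prop :=
  (fun X : ℕ => ∑ p ∈ (Finset.range X).filter (fun p => p.Prime ∧ p ∉ S), v p * Real.log p) =o[atTop]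
    fun X : ℕ => √(X : ℝ)

section

variable {S S₀ : Finset ℕ} {F₂ : ℕ → ℕ → ℂ} {v : ℕ → ℝ} {C : ℝ}

/-- single values -/
theorem Lit.point (h : Lit S₀ v) (hv : ∀ p, 0 ≤ v p) {ε : ℝ} (hε : 0 < ε) :
    ∃ B : ℕ, ∀ p : ℕ, p.Prime → p ∉ S₀ → B ≤ p → v p ≤ ε * √(p : ℝ) := by
  unfold Lit at h
  rw [isLittleO_iff] at h
  have h1 := h (c := ε * Real.log 2 / √2) (by
    have : 0 < Real.log 2 := Real.log_pos (by norm_num)
    positivity)
  rw [eventually_atTop] at h1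
  obtain ⟨B, hB⟩ := h1
  refine ⟨B + 1, fun p hp hpS hBp => ?_⟩
  have h2 := hB (p + 1) (by omega)
  have hlog2 : 0 < Real.log 2 := Real.log_pos (by norm_num)
  have hlog : Real.log 2 ≤ Real.log p := Real.log_le_log (by norm_num) (by exact_mod_cast hp.two_le)
  have hp0 : (1 : ℝ) ≤ p := by exact_mod_cast hp.one_lt.le
  have h3 : v p * Real.log p ≤ ∑ q ∈ (Finset.range (p + 1)).filter (fun p => p.Prime ∧ p ∉ S₀),
      v q * Real.log q :=
    Finset.single_le_sum (f := fun q => v q * Real.log q)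
      (fun q _ => mul_nonneg (hv q) (Real.log_natCast_nonneg q))
      (Finset.mem_filter.2 ⟨Finset.mem_range.2 (by omega), hp, hpS⟩)
  rw [Real.norm_of_nonneg (Finset.sum_nonneg fun q _ =>
    mul_nonneg (hv q) (Real.log_natCast_nonneg q)), Real.norm_of_nonneg (Real.sqrt_nonneg _)] at h2
  have h4 : √((p + 1 : ℕ) : ℝ) ≤ √2 * √(p : ℝ) := by
    rw [← Real.sqrt_mul (by norm_num)]
    refine Real.sqrt_le_sqrt ?_
    push_cast
    linarith
  have h5 : v p * Real.log 2 ≤ ε * √(p : ℝ) * Real.log 2 := by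
    have hs2 : 0 < √(2 : ℝ) := Real.sqrt_pos.2 (by norm_num)
    calc v p * Real.log 2 ≤ v p * Real.log p := mul_le_mul_of_nonneg_left hlog (hv p)
      _ ≤ ε * Real.log 2 / √2 * √((p + 1 : ℕ) : ℝ) := h3.trans h2
      _ ≤ ε * Real.log 2 / √2 * (√2 * √(p : ℝ)) := by gcongr
      _ = _ := by field_simp
  exact le_of_mul_le_mul_right h5 hlog2

theorem small_of (hv : ∀ p, 0 ≤ v p) (hC : 0 ≤ C) (ho : Lit S₀ v) (hSS : S₀ ⊆ S)
    (hF : ∀ (p : PS S) (k : ℕ), ‖F₂ p (k + 1)‖ ≤ C * v p * (√((p : ℕ) : ℝ) / 2) ^ k) : Sm S F₂ := by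
  classical
  set g : ℕ → ℝ := fun n => if n.Prime ∧ n ∉ S₀ then v n * Real.log n else 0 with hg
  have hg0 : ∀ n, 0 ≤ g n := by
    intro n
    simp only [hg]
    split_ifs
    · exact mul_nonneg (hv n) (Real.log_natCast_nonneg n)
    · exact le_rfl
  obtain ⟨hS, hlim⟩ := abel hg0 (by
    unfold Lit at ho
    refine ho.congr_left fun X => ?_
    rw [Finset.sum_filter])
  have hgp : ∀ p : PS S, g p = v p * Real.log (p : ℕ) := by
    intro p
    simp only [hg]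
    rw [if_pos ⟨p.2.1, fun h => p.2.2 (hSS h)⟩]
  have hterm : ∀ (σ : ℝ), 1 / 2 < σ → ∀ i : PS S × ℕ,
      ‖aa S 1 F₂ i‖ * Real.exp (-(oo S 1 i * σ)) ≤
        (C * (g i.1 * ((i.1 : ℕ) : ℝ) ^ (-σ))) * (1 / 2) ^ i.2 := by
    intro σ hσ i
    have hp := i.1.pos
    have hl := i.1.log_pos
    have h1 := hF i.1 i.2
    have hv0 := hv i.1
    have h2 : √((i.1 : ℕ) : ℝ) / 2 * ((i.1 : ℕ) : ℝ) ^ (-σ) ≤ 1 / 2 := by
      have h3 : ((i.1 : ℕ) : ℝ) ^ (-σ) ≤ ((i.1 : ℕ) : ℝ) ^ (-(1 / 2 : ℝ)) :=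
        Real.rpow_le_rpow_of_exponent_le i.1.one_lt.le (by linarith)
      have h4 : √((i.1 : ℕ) : ℝ) * ((i.1 : ℕ) : ℝ) ^ (-(1 / 2 : ℝ)) = 1 := by
        rw [Real.sqrt_eq_rpow, ← Real.rpow_add hp]
        norm_num
      have h5 : 0 ≤ √((i.1 : ℕ) : ℝ) := Real.sqrt_nonneg _
      have h6 := mul_le_mul_of_nonneg_left h3 h5
      rw [h4] at h6
      linarith
    rw [exp_oo, hgp]
    unfold aa
    rw [norm_mul, Complex.norm_real, Real.norm_of_nonneg hl.le, Nat.cast_one, one_mul]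
    calc ‖F₂ i.1 (i.2 + 1)‖ * Real.log (i.1 : ℕ) *
          (((i.1 : ℕ) : ℝ) ^ (-σ) * (((i.1 : ℕ) : ℝ) ^ (-σ)) ^ i.2) ≤
        (C * v i.1 * (√((i.1 : ℕ) : ℝ) / 2) ^ i.2) * Real.log (i.1 : ℕ) *
          (((i.1 : ℕ) : ℝ) ^ (-σ) * (((i.1 : ℕ) : ℝ) ^ (-σ)) ^ i.2) := by gcongr
      _ = (C * (v i.1 * Real.log (i.1 : ℕ) * ((i.1 : ℕ) : ℝ) ^ (-σ))) *
          (√((i.1 : ℕ) : ℝ) / 2 * ((i.1 : ℕ) : ℝ) ^ (-σ)) ^ i.2 := by
          rw [mul_pow]
          ring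
      _ ≤ _ := by gcongr
  have hsumP : ∀ σ : ℝ, 1 / 2 < σ → Summable fun p : PS S => C * (g p * ((p : ℕ) : ℝ) ^ (-σ)) :=
    fun σ hσ => ((hS σ hσ).comp_injective Subtype.val_injective).mul_left C
  have hdom : ∀ σ : ℝ, 1 / 2 < σ → Summable fun i : PS S × ℕ =>
      (C * (g i.1 * ((i.1 : ℕ) : ℝ) ^ (-σ))) * (1 / 2) ^ i.2 := by
    intro σ hσ
    refine Summable.mul_of_nonneg (hsumP σ hσ) summable_geometric_two (fun p => ?_)
      (fun k => by positivity)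
    have := hg0 p
    have := p.pos
    simp only [Pi.zero_apply]
    positivity
  have hsum : ∀ σ : ℝ, 1 / 2 < σ → Summable fun i : PS S × ℕ =>
      ‖aa S 1 F₂ i‖ * Real.exp (-(oo S 1 i * σ)) := fun σ hσ =>
    Summable.of_nonneg_of_le (fun i => by positivity) (hterm σ hσ) (hdom σ hσ)
  refine ⟨hsum, ?_⟩
  have hmaj : ∀ σ : ℝ, 1 / 2 < σ → maj S F₂ σ ≤ 2 * C * ∑' n : ℕ, g n * (n : ℝ) ^ (-σ) := by
    intro σ hσ
    unfold maj
    refine ((hsum σ hσ).tsum_le_tsum (hterm σ hσ) (hdom σ hσ)).trans ?_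
    rw [(hdom σ hσ).tsum_prod' (fun p => by simpa using (summable_geometric_two).mul_left _)]
    simp_rw [tsum_mul_left, tsum_geometric_two]
    rw [tsum_mul_right, tsum_mul_left]
    have h1 : ∑' p : PS S, g p * ((p : ℕ) : ℝ) ^ (-σ) ≤ ∑' n : ℕ, g n * (n : ℝ) ^ (-σ) := by
      refine Summable.tsum_le_tsum_of_inj (fun p : PS S => (p : ℕ)) Subtype.val_injective
        (fun n _ => ?_) (fun p => le_rfl) ((hS σ hσ).comp_injective Subtype.val_injective) (hS σ hσ)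
      exact mul_nonneg (hg0 n) (Real.rpow_nonneg (Nat.cast_nonneg n) _)
    nlinarith
  have h1 := hlim.const_mul (2 * C)
  rw [mul_zero] at h1
  refine squeeze_zero' ?_ ?_ h1
  · filter_upwards [self_mem_nhdsWithin] with δ hδ
    have hδ : (0 : ℝ) < δ := hδ
    exact mul_nonneg hδ.le (maj_nonneg _ _ _)
  · filter_upwards [self_mem_nhdsWithin] with δ hδ
    have hδ : (0 : ℝ) < δ := hδ
    have h2 := hmaj (1 / 2 + δ) (by linarith)
    calc δ * maj S F₂ (1 / 2 + δ) ≤ δ * (2 * C * ∑' n : ℕ, g n * (n : ℝ) ^ (-(1 / 2 + δ))) :=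
          mul_le_mul_of_nonneg_left h2 hδ.le
      _ = _ := by ring

end

end Pool.Agent.U253.GAP
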